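import Pool.Agent.helper38.OB.Spec

/-!
# Row MB: the expected number of nearly zero sums, all levels
-/

namespace Pool.Agent.OB

open Finset

namespace MBrow

lemma sum_geo (b : ℝ) (hb : 4 ≤ b) (M L : ℕ) :
    ∑ l ∈ Finset.Icc M L, ((l : ℝ) + 1) / b ^ l ≤ 2 * ((M : ℝ) + 1) / b ^ M := by
  have hb0 : 0 < b := by linarith
  have key : ∀ n : ℕ, ∑ k ∈ Finset.range n, (((M + k : ℕ) : ℝ) + 1) / b ^ (M + k)
      ≤ (2 - 2 * (1 / 2) ^ n) * ((M : ℝ) + 1) / b ^ M := by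
    intro n
    induction n with
    | zero => simp
    | succ n ih =>
      rw [Finset.sum_range_succ]
      have h1 : (((M + n : ℕ) : ℝ) + 1) / b ^ (M + n) ≤ (1 / 2) ^ n * ((M : ℝ) + 1) / b ^ M := by
        rw [div_le_div_iff₀ (by positivity) (by positivity), pow_add]
        have h2 : (((M + n : ℕ) : ℝ) + 1) ≤ ((M : ℝ) + 1) * 2 ^ n := by
          have h3 : n + 1 ≤ 2 ^ n := Nat.lt_two_pow_self
          have h4 : ((n : ℝ) + 1) ≤ 2 ^ n := by exact_mod_cast h3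
          have h5 : (0 : ℝ) ≤ (M : ℝ) := Nat.cast_nonneg M
          have h6 : (0 : ℝ) ≤ (n : ℝ) := Nat.cast_nonneg n
          push_cast
          nlinarith
        have h7 : (4 : ℝ) ^ n ≤ b ^ n := pow_le_pow_left₀ (by norm_num) hb n
        have h8 : (2 : ℝ) ^ n = (1 / 2) ^ n * 4 ^ n := by
          rw [← mul_pow]; norm_num
        have h9 : (2 : ℝ) ^ n ≤ (1 / 2) ^ n * b ^ n := by
          rw [h8]; exact mul_le_mul_of_nonneg_left h7 (by positivity)
        have h10 : (0 : ℝ) < b ^ M := by positivity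
        have h11 : (0 : ℝ) < (M : ℝ) + 1 := by positivity
        calc (((M + n : ℕ) : ℝ) + 1) * b ^ M ≤ (((M : ℝ) + 1) * 2 ^ n) * b ^ M :=
              mul_le_mul_of_nonneg_right h2 h10.le
          _ ≤ (((M : ℝ) + 1) * ((1 / 2) ^ n * b ^ n)) * b ^ M :=
              mul_le_mul_of_nonneg_right (mul_le_mul_of_nonneg_left h9 h11.le) h10.le
          _ = (1 / 2) ^ n * ((M : ℝ) + 1) * (b ^ M * b ^ n) := by ring
      have h12 : (2 - 2 * (1 / 2 : ℝ) ^ (n + 1)) * ((M : ℝ) + 1) / b ^ M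
          = (2 - 2 * (1 / 2) ^ n) * ((M : ℝ) + 1) / b ^ M + (1 / 2) ^ n * ((M : ℝ) + 1) / b ^ M := by
        rw [← add_div, pow_succ]; ring
      rw [h12]
      exact add_le_add ih h1
  have hI : ∑ l ∈ Finset.Icc M L, ((l : ℝ) + 1) / b ^ l
      = ∑ k ∈ Finset.range (L + 1 - M), (((M + k : ℕ) : ℝ) + 1) / b ^ (M + k) := by
    rw [← Finset.Ico_succ_right_eq_Icc, Finset.sum_Ico_eq_sum_range]
    rfl
  rw [hI]
  refine (key _).trans ?_
  have h13 : (0 : ℝ) ≤ (1 / 2) ^ (L + 1 - M) := by positivity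
  have h14 : (0 : ℝ) < b ^ M := by positivity
  have h15 : (0 : ℝ) ≤ (M : ℝ) + 1 := by positivity
  apply div_le_div_of_nonneg_right _ h14.le
  nlinarith

lemma sum_un {α : Type} [DecidableEq α] (f : α → ℝ) (hf : ∀ x, 0 ≤ f x) (A B : Finset α) :
    ∑ x ∈ A ∪ B, f x ≤ ∑ x ∈ A, f x + ∑ x ∈ B, f x := by
  rw [← Finset.sum_union_inter]
  exact le_add_of_nonneg_right (Finset.sum_nonneg fun x _ => hf x)

lemma sum_bi {α ι : Type} [DecidableEq α] [DecidableEq ι] (f : α → ℝ) (hf : ∀ x, 0 ≤ f x) (I : Finset ι)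
    (T : ι → Finset α) : ∑ x ∈ I.biUnion T, f x ≤ ∑ i ∈ I, ∑ x ∈ T i, f x := by
  induction I using Finset.induction_on with
  | empty => simp
  | insert a I ha ih =>
    rw [Finset.biUnion_insert, Finset.sum_insert ha]
    exact (sum_un f hf _ _).trans (add_le_add le_rfl ih)

end MBrow

open MBrow in
theorem MB (hBAS : BAS_stmt) (hWTS : WTS_stmt) (hLOW : LOW_stmt) (hTB : TB_stmt) : MB_stmt := by
  classical
  intro h hh
  obtain ⟨C, hC, hTB'⟩ := hTB h hh
  refine ⟨1 + 2 * C, by linarith, ?_⟩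
  intro κ hκ0 hκ1 l0 L j c hj1 hjh hc s J M hM
  have hbe4 : (4 : ℝ) ≤ (be h : ℝ) := by
    have h1 : 4 ≤ be h := by
      unfold be C0
      have h2 : 1 ≤ h ^ 2 := Nat.one_le_pow _ _ (by omega)
      have h3 : 4 ≤ 16 * h ^ 2 := by omega
      calc 4 ≤ 16 * h ^ 2 := h3
        _ = (16 * h ^ 2) ^ 1 := (pow_one _).symm
        _ ≤ (16 * h ^ 2) ^ 6 := Nat.pow_le_pow_right (by omega) (by norm_num)
    exact_mod_cast h1
  have hbe0 : (0 : ℝ) < (be h : ℝ) := by linarith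
  have hwt : ∀ x, 0 ≤ wt h κ x := fun x => ((hWTS h hh κ hκ0 hκ1 (lev h x)).2.1).le
  have hBs0 : (0 : ℝ) < (Bs h : ℝ) := by
    unfold Bs; push_cast; positivity
  have hlevS : ∀ l, ∀ x ∈ S h l, lev h x = l := fun l x hx => ((hBAS h hh l).1 x hx).1
  -- membership in the union of blocks
  have hU : ∀ a b x, x ∈ U h a b ↔ a ≤ lev h x ∧ lev h x ≤ b ∧ x ∈ S h (lev h x) := by
    intro a b x
    unfold U
    rw [Finset.mem_biUnion]
    constructor
    · rintro ⟨l, hl, hx⟩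
      have h1 := hlevS l x hx
      rw [Finset.mem_Icc] at hl
      rw [h1]
      exact ⟨hl.1, hl.2, hx⟩
    · rintro ⟨h1, h2, h3⟩
      exact ⟨lev h x, Finset.mem_Icc.2 ⟨h1, h2⟩, h3⟩
  have hmemRN : ∀ (V : Finset ℕ) (x : Fin j → ℕ), x ∈ RN c s (Bs h ^ J) V ↔
      (∀ i, x i ∈ V) ∧ Function.Injective x ∧ |s + lf c x| ≤ ((Bs h ^ J : ℕ) : ℤ) := by
    intro V x
    unfold RN RQ Inj
    simp only [Finset.mem_filter, Fintype.mem_piFinset, and_assoc]
  let V : Finset ℕ := (U h l0 L).filter fun x => lev h x < J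
  let lowF : Finset (Fin j → ℕ) := Fintype.piFinset fun _ : Fin j => V
  have hsub : RN c s (Bs h ^ J) (U h l0 L) ⊆
      lowF ∪ (Finset.Icc M L).biUnion fun l => top h l (RN c s (Bs h ^ J) (U h l0 l)) := by
    intro x hx
    rw [hmemRN] at hx
    obtain ⟨hxU, hxi, hxs⟩ := hx
    have : Nonempty (Fin j) := ⟨⟨0, by omega⟩⟩
    obtain ⟨i, -, hi⟩ := Finset.exists_max_image (Finset.univ : Finset (Fin j)) (fun i => lev h (x i))
      Finset.univ_nonempty
    rw [Finset.mem_union]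
    by_cases hlt : lev h (x i) < J
    · left
      rw [Fintype.mem_piFinset]
      intro k
      exact Finset.mem_filter.2 ⟨hxU k, lt_of_le_of_lt (hi k (Finset.mem_univ _)) hlt⟩
    · right
      rw [not_lt] at hlt
      obtain ⟨h1, h2, h3⟩ := (hU _ _ _).1 (hxU i)
      rw [Finset.mem_biUnion]
      refine ⟨lev h (x i), Finset.mem_Icc.2 ⟨by rw [hM]; exact max_le hlt h1, h2⟩, ?_⟩
      unfold top
      rw [Finset.mem_filter]
      refine ⟨(hmemRN _ _).2 ⟨fun k => ?_, hxi, hxs⟩, i, rfl⟩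
      obtain ⟨h4, h5, h6⟩ := (hU _ _ _).1 (hxU k)
      exact (hU _ _ _).2 ⟨h4, hi k (Finset.mem_univ _), h6⟩
  have hprod : ∀ x : Fin j → ℕ, 0 ≤ ∏ i, wt h κ (x i) := fun x => Finset.prod_nonneg fun i _ => hwt _
  have hEx : Ex h κ (RN c s (Bs h ^ J) (U h l0 L)) ≤
      Ex h κ lowF + ∑ l ∈ Finset.Icc M L, Ex h κ (top h l (RN c s (Bs h ^ J) (U h l0 l))) := by
    unfold Ex
    refine (Finset.sum_le_sum_of_subset_of_nonneg hsub fun x _ _ => hprod x).trans ?_
    refine (sum_un _ hprod _ _).trans ?_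
    exact add_le_add le_rfl (sum_bi _ hprod _ _)
  -- the low part
  have hlow : Ex h κ lowF ≤ (Bs h : ℝ) ^ J * (M + 1) / (be h : ℝ) ^ M := by
    have h1 : Ex h κ lowF = (∑ y ∈ V, wt h κ y) ^ j := by
      unfold Ex
      rw [← Finset.prod_univ_sum (fun _ : Fin j => V) (fun _ y => wt h κ y)]
      rw [Finset.prod_const, Finset.card_univ, Fintype.card_fin]
    by_cases hlJ : l0 < J
    · have hMJ : M = J := by rw [hM]; exact max_eq_left hlJ.le
      have h2 : ∑ y ∈ V, wt h κ y ≤ κ * (be h : ℝ) ^ J := (hLOW h hh κ hκ0 hκ1 l0 L J).2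
      have h3 : 0 ≤ ∑ y ∈ V, wt h κ y := Finset.sum_nonneg fun y _ => hwt y
      have h4 : (1 : ℝ) ≤ (be h : ℝ) ^ J := one_le_pow₀ (by linarith)
      have h5 : ∑ y ∈ V, wt h κ y ≤ (be h : ℝ) ^ J := by
        refine h2.trans ?_
        calc κ * (be h : ℝ) ^ J ≤ 1 * (be h : ℝ) ^ J := mul_le_mul_of_nonneg_right hκ1 (by positivity)
          _ = (be h : ℝ) ^ J := one_mul _
      rw [h1, hMJ]
      calc (∑ y ∈ V, wt h κ y) ^ j ≤ ((be h : ℝ) ^ J) ^ j := pow_le_pow_left₀ h3 h5 j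
        _ ≤ ((be h : ℝ) ^ J) ^ (h - 1) := pow_le_pow_right₀ h4 (by omega)
        _ = (Bs h : ℝ) ^ J / (be h : ℝ) ^ J := by
            rw [eq_div_iff (by positivity)]
            unfold Bs
            push_cast
            rw [← pow_succ, ← pow_mul, ← pow_mul, Nat.sub_add_cancel (by omega), mul_comm J h]
        _ ≤ (Bs h : ℝ) ^ J * (J + 1) / (be h : ℝ) ^ J := by
            apply div_le_div_of_nonneg_right _ (by positivity)
            have h6 : (0 : ℝ) < (Bs h : ℝ) ^ J := by positivity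
            have h7 : (0 : ℝ) ≤ (J : ℝ) := Nat.cast_nonneg J
            nlinarith
    · have hV : V = ∅ := by
        apply Finset.eq_empty_of_forall_notMem
        intro y hy
        obtain ⟨hy1, hy2⟩ := Finset.mem_filter.1 hy
        obtain ⟨h2, -, -⟩ := (hU _ _ _).1 hy1
        omega
      rw [h1, hV, Finset.sum_empty, zero_pow (by omega)]
      positivity
  have hhigh : ∑ l ∈ Finset.Icc M L, Ex h κ (top h l (RN c s (Bs h ^ J) (U h l0 l))) ≤
      2 * C * ((Bs h : ℝ) ^ J * (M + 1) / (be h : ℝ) ^ M) := by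
    calc ∑ l ∈ Finset.Icc M L, Ex h κ (top h l (RN c s (Bs h ^ J) (U h l0 l)))
        ≤ ∑ l ∈ Finset.Icc M L, C * (Bs h : ℝ) ^ J * (l + 1) / (be h : ℝ) ^ l := by
          apply Finset.sum_le_sum
          intro l hl
          refine hTB' κ hκ0 hκ1 l0 l j c hj1 hjh hc s J ?_
          have h2 := (Finset.mem_Icc.1 hl).1
          have h3 : J ≤ M := by rw [hM]; exact le_max_left _ _
          omega
      _ = C * (Bs h : ℝ) ^ J * ∑ l ∈ Finset.Icc M L, ((l : ℝ) + 1) / (be h : ℝ) ^ l := by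
          rw [Finset.mul_sum]
          apply Finset.sum_congr rfl
          intro l _
          rw [mul_div_assoc]
      _ ≤ C * (Bs h : ℝ) ^ J * (2 * ((M : ℝ) + 1) / (be h : ℝ) ^ M) :=
          mul_le_mul_of_nonneg_left (sum_geo _ hbe4 M L) (by positivity)
      _ = 2 * C * ((Bs h : ℝ) ^ J * (M + 1) / (be h : ℝ) ^ M) := by ring
  calc Ex h κ (RN c s (Bs h ^ J) (U h l0 L))
      ≤ (Bs h : ℝ) ^ J * (M + 1) / (be h : ℝ) ^ M + 2 * C * ((Bs h : ℝ) ^ J * (M + 1) / (be h : ℝ) ^ M) :=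
        hEx.trans (add_le_add hlow hhigh)
    _ = (1 + 2 * C) * (Bs h : ℝ) ^ J * (M + 1) / (be h : ℝ) ^ M := by ring

end Pool.Agent.OB
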